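import Mathlib
import Pool.Agent.helper35.DR.SpecP

/-!
# Project dr (MP_baa4d7_al): module PIR
-/

set_option autoImplicit false

namespace Pool.Agent.DR

open Pool.Agent.helper58.DC Pool.Agent.DI

lemma PIR_ne : t₁ ≠ t₀ := by
  intro h
  exact Bool.noConfusion h

lemma PIR_two0 {α : Type} (a b : α) : two a b t₀ = a := if_pos rfl

lemma PIR_two1 {α : Type} (a b : α) : two a b t₁ = b := if_neg PIR_ne

lemma PIR_cases (t : TT) : t = t₀ ∨ t = t₁ := by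
  cases t
  · exact Or.inl rfl
  · exact Or.inr rfl

lemma PIR_forall {P : TT → Prop} : (∀ t, P t) ↔ P t₀ ∧ P t₁ := by
  constructor
  · intro h
    exact ⟨h _, h _⟩
  · rintro ⟨h0, h1⟩ t
    rcases PIR_cases t with rfl | rfl
    · exact h0
    · exact h1

theorem PIR (hAS : AS_stmt) (hIO : IO_stmt) (hIP : IP_stmt) (hIF : IF_stmt) (hPDL : PDL_stmt) :
    PIR_stmt := by
  classical
  intro G _ _ p _ M hop χ hχ C hC W hW F
  have hn := (hAS G TT p hop C hC W hW).2.2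
  rw [hn]
  obtain ⟨hI1, hI2, hI3⟩ := hIO G TT (fun t => nrm (C t))
  have hfam : ∀ t, fam χ t ∈ Irr G := by
    rw [PIR_forall]
    unfold fam
    rw [PIR_two0, PIR_two1]
    exact ⟨hχ, (hPDL G χ χ).2.2.1.2 hχ⟩
  set A : Set (G → ℂ) := {ψ₀ | ψ₀ ∈ IrrOn (nrm (C t₀)) ∧ Induces M ψ₀ χ} with hA
  set B : Set (G → ℂ) := {ψ₁ | ψ₁ ∈ IrrOn (nrm (C t₁)) ∧ Induces M ψ₁ χ} with hB
  have hAf : A.Finite := (hIF G (nrm (C t₀))).1.subset fun x hx => hx.1
  have hBf : B.Finite := (hIF G (nrm (C t₁))).1.subset fun x hx => hx.1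
  set g : (G → ℂ) × (G → ℂ) → ((TT → G) → ℂ) := fun x => tens (two x.1 (dl x.2)) with hg
  -- the characters `two ψ₀ (dl ψ₁)`
  have htwo : ∀ x ∈ A ×ˢ B, ∀ t, two x.1 (dl x.2) t ∈ IrrOn (nrm (C t)) := by
    rintro ⟨a, b⟩ ⟨ha, hb⟩
    rw [PIR_forall, PIR_two0, PIR_two1]
    exact ⟨ha.1, ((hPDL G b χ).2.1 _).2 hb.1⟩
  have himg : {ψ' : (TT → G) → ℂ | ψ' ∈ IrrOn (Subgroup.pi Set.univ fun t => nrm (C t)) ∧
      Induces M ψ' (tens (fam χ))} = g '' (A ×ˢ B) := by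
    ext ψ'
    constructor
    · rintro ⟨h1, h2⟩
      obtain ⟨ψ, hψ, rfl⟩ := hI2 ψ' h1
      have h3 := (hIP G TT M (fun t => nrm (C t)) ψ (fam χ) hψ hfam).1 h2
      rw [PIR_forall] at h3
      unfold fam at h3
      rw [PIR_two0, PIR_two1] at h3
      have e1 : dl (dl (ψ t₁)) = ψ t₁ := (hPDL G (ψ t₁) χ).1
      refine ⟨(ψ t₀, dl (ψ t₁)), ⟨⟨hψ t₀, h3.1⟩, ?_, ?_⟩, ?_⟩
      · exact ((hPDL G (ψ t₁) χ).2.1 _).2 (hψ t₁)
      · refine ((hPDL G (dl (ψ t₁)) χ).2.2.2.2.1 M).1 ?_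
        show Induces M (dl (dl (ψ t₁))) (dl χ)
        rw [e1]
        exact h3.2
      · show tens (two (ψ t₀) (dl (dl (ψ t₁)))) = tens ψ
        rw [e1]
        have e2 : two (ψ t₀) (ψ t₁) = ψ := by
          funext t
          rcases PIR_cases t with rfl | rfl
          · exact PIR_two0 _ _
          · exact PIR_two1 _ _
        rw [e2]
    · rintro ⟨x, hx, rfl⟩
      refine ⟨hI1 _ (htwo x hx), ?_⟩
      refine (hIP G TT M (fun t => nrm (C t)) _ (fam χ) (htwo x hx) hfam).2 ?_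
      rw [PIR_forall]
      unfold fam
      rw [PIR_two0, PIR_two1, PIR_two0, PIR_two1]
      exact ⟨hx.1.2, ((hPDL G x.2 χ).2.2.2.2.1 M).2 hx.2.2⟩
  have hinj : Set.InjOn g (A ×ˢ B) := by
    intro x hx y hy hxy
    have h1 := hI3 _ _ (htwo x hx) (htwo y hy) hxy
    have h2 := congrFun h1 t₀
    have h3 := congrFun h1 t₁
    rw [PIR_two0, PIR_two0] at h2
    rw [PIR_two1, PIR_two1] at h3
    have h4 : dl (dl x.2) = dl (dl y.2) := congrArg dl h3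
    rw [(hPDL G x.2 χ).1, (hPDL G y.2 χ).1] at h4
    exact Prod.ext h2 h4
  rw [himg, finsum_mem_image hinj]
  have e3 : (A ×ˢ B) = ((hAf.toFinset ×ˢ hBf.toFinset : Finset ((G → ℂ) × (G → ℂ))) :
      Set ((G → ℂ) × (G → ℂ))) := by
    rw [Finset.coe_product, Set.Finite.coe_toFinset, Set.Finite.coe_toFinset]
  rw [e3, finsum_mem_coe_finset, Finset.sum_product, finsum_mem_eq_finite_toFinset_sum _ hAf]
  refine Finset.sum_congr rfl fun a _ => ?_
  rw [finsum_mem_eq_finite_toFinset_sum _ hBf]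

end Pool.Agent.DR
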